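import Pool.Agent.J4.H9.HM.Rep

/-!
# Descent of the abelian varieties attached to newforms
-/

set_option autoImplicit false

namespace Pool.Agent.J4.H9.HM

section

variable {K : Type} [Field K] {Z M P : Type} [Field Z] [Field M]

theorem exists_equiv (σ : Z →+* K) (τ : M →+* K) (t : P → Z) (a : P → M) (S : Set P)
    (h : ∀ v ∈ S, σ (t v) = τ (a v)) (ht : Subfield.closure (t '' S) = ⊤)
    (ha : Subfield.closure (a '' S) = ⊤) : ∃ φ : Z ≃+* M, (∀ x, τ (φ x) = σ x) := by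
  have h1 : σ.fieldRange = τ.fieldRange := by
    rw [RingHom.fieldRange_eq_map, RingHom.fieldRange_eq_map, ← ht, ← ha,
      RingHom.map_field_closure, RingHom.map_field_closure]
    congr 1
    ext y
    simp only [Set.mem_image, exists_exists_and_eq_and]
    exact ⟨fun ⟨v, hv, hy⟩ => ⟨v, hv, (h v hv).symm.trans hy⟩,
      fun ⟨v, hv, hy⟩ => ⟨v, hv, (h v hv).trans hy⟩⟩
  have h2 : ∀ x : Z, ∃ y : M, τ y = σ x := by
    intro x
    have h3 : σ x ∈ τ.fieldRange := h1 ▸ ⟨x, rfl⟩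
    exact h3
  have h4 : ∀ y : M, ∃ x : Z, τ y = σ x := by
    intro y
    have h3 : τ y ∈ σ.fieldRange := h1 ▸ ⟨y, rfl⟩
    obtain ⟨x, hx⟩ := h3
    exact ⟨x, hx.symm⟩
  choose φ hφ using h2
  let Φ : Z →+* M :=
    { toFun := φ
      map_one' := τ.injective (by rw [hφ, map_one, map_one])
      map_mul' := fun x y => τ.injective (by rw [hφ, map_mul, map_mul, hφ, hφ])
      map_zero' := τ.injective (by rw [hφ, map_zero, map_zero])
      map_add' := fun x y => τ.injective (by rw [hφ, map_add, map_add, hφ, hφ]) }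
  refine ⟨RingEquiv.ofBijective Φ ⟨Φ.injective, fun y => ?_⟩, hφ⟩
  obtain ⟨x, hx⟩ := h4 y
  exact ⟨x, τ.injective ((hφ x).trans hx.symm)⟩

end

variable {ℓ : ℕ} [Fact ℓ.Prime] {𝒜 : AbVars ℓ} {𝒩 : Newforms ℓ}

/-- the real structure kills the Schur index -/
theorem dvd_dim {k : NField} {A : 𝒜.AV k} {Z : Type} [Field Z] [NumberField Z] {m : ℕ}
    (hF : Faltings 𝒜 A Z m) (hR : RealStructure (𝒜.E A) (𝒜.dim A)) :
    m ^ 2 * Module.finrank ℚ Z ∣ 𝒜.dim A := by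
  obtain ⟨H, _, _, _, _, c, -, -, hhalf⟩ := hR
  have h1 : 0 < Module.finrank ℚ (LinearMap.eqLocus c LinearMap.id) := by
    rw [hhalf]; exact hF.pos
  have hfin := hF.endo.finite
  have hnt : Nontrivial (𝒜.E A) := by
    by_contra hcon
    rw [not_nontrivial_iff_subsingleton] at hcon
    have h3 : ∀ x : H, x = 0 := fun x => by
      rw [← one_smul (𝒜.E A) x, Subsingleton.elim (1 : 𝒜.E A) 0, zero_smul]
    have h4 : Subsingleton (LinearMap.eqLocus c LinearMap.id) :=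
      ⟨fun x y => Subtype.ext ((h3 _).trans (h3 _).symm)⟩
    rw [Module.finrank_zero_of_subsingleton] at h1
    exact lt_irrefl 0 h1
  let _ : DivisionRing (𝒜.E A) := DivisionRing.ofIsUnitOrEqZero fun x =>
    (em (x = 0)).elim Or.inr fun h => Or.inl (hF.endo.unit x h)
  have h5 : Module.finrank ℚ (𝒜.E A) *
      Module.finrank (𝒜.E A) (LinearMap.eqLocus c LinearMap.id) =
        Module.finrank ℚ (LinearMap.eqLocus c LinearMap.id) :=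
    Module.finrank_mul_finrank ℚ (𝒜.E A) _
  rw [hhalf, hF.endo.degree] at h5
  exact ⟨_, h5.symm⟩

/-- **Descent.** -/
theorem descent (hA : 𝒜.IsKnown) {k k' : NField} (hr : ∃ φ : k.F →+* ℂ, ∀ x, (φ x).im = 0)
    (h : k.F ≤ k'.F) {f : 𝒩.New k} (hf : 𝒩.IsKnown 𝒜 f) (τ : 𝒩.M f →+* Qlb ℓ) (B : 𝒜.AV k')
    (hB : Occurs (res h (𝒩.ρ f τ)) (𝒜.V B)) :
    ∃ A : 𝒜.AV k, Attached 𝒜 𝒩 f A ∧ 𝒜.dim A = Module.finrank ℚ (𝒩.M f) ∧
      Nonempty (𝒜.E A ≃+* 𝒩.M f) := by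
  classical
  -- a simple abelian variety over `k`
  obtain ⟨B₀, hB₀⟩ := hA.weil k k' h B
  obtain ⟨A, hs, hocc⟩ := hA.poincare k B₀ _ (hf.irr τ) (hB₀ _ hB)
  obtain ⟨Z, _, _, m, hF⟩ := hA.faltings k A hs
  have hdvd := dvd_dim hF (hA.real k A hr hs)
  obtain ⟨W, t, hT, hgen⟩ := hF.tate
  obtain ⟨⟨σ, i₀⟩, hiso⟩ := exists_isom (hf.irr τ) hocc hT.sum fun i => hT.irr i.1
  obtain ⟨S, hS⟩ := hT.trace σ
  -- the Schur index is one
  have h2 : (W σ).dim = 2 := by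
    rw [← hiso.dim_eq, hf.two τ]
  have hz : 0 < Module.finrank ℚ Z := Module.finrank_pos
  have hdimA : 𝒜.dim A = m * Module.finrank ℚ Z := by
    have h3 := hT.dim σ
    rw [h2] at h3
    nlinarith
  have hm0 : 0 < m := by
    rcases Nat.eq_zero_or_pos m with h3 | h3
    · rw [h3, zero_mul] at hdimA
      exact absurd hF.pos (by omega)
    · exact h3
  have hm : m = 1 := by
    obtain ⟨q, hq⟩ := hdvd
    rw [hdimA] at hq
    have h3 : m * Module.finrank ℚ Z * 1 = m * Module.finrank ℚ Z * (m * q) := by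
      rw [mul_one]
      calc m * Module.finrank ℚ Z = m ^ 2 * Module.finrank ℚ Z * q := hq
        _ = m * Module.finrank ℚ Z * (m * q) := by ring
    have h4 := Nat.eq_of_mul_eq_mul_left (Nat.mul_pos hm0 hz) h3
    exact Nat.eq_one_of_mul_eq_one_right h4.symm
  subst hm
  -- the centre
  obtain ⟨S', hS'⟩ := hf.trace τ
  have hfrob : ∀ v : k.Pl, ∃ g : k.Gal, IsFrob v g := hA.frob k
  obtain ⟨φ, hφ⟩ := exists_equiv σ τ t (𝒩.a f) {v | v ∉ S ∪ S'} (fun v hv => by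
      rw [Set.mem_ofPred_eq, Finset.mem_union, not_or] at hv
      obtain ⟨g, hg⟩ := hfrob v
      rw [← hS v hv.1 g hg, ← hS' v hv.2 g hg]
      exact hiso.symm.tr_eq g) (hgen _) (hf.gen _)
  have hval : ∀ v, v ∉ S ∪ S' → φ (t v) = 𝒩.a f v := by
    intro v hv
    rw [Finset.mem_union, not_or] at hv
    obtain ⟨g, hg⟩ := hfrob v
    apply τ.injective
    rw [hφ, ← hS v hv.1 g hg, ← hS' v hv.2 g hg]
    exact hiso.symm.tr_eq g
  refine ⟨A, ⟨hs, ?_⟩, ?_, ?_⟩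
  · -- the Tate module
    refine hT.sum.congr (⟨fun τ' => (τ'.comp φ.toRingHom, 0), fun i => i.1.comp φ.symm.toRingHom,
      fun τ' => ?_, fun i => ?_⟩ : (𝒩.M f →+* Qlb ℓ) ≃ (Z →+* Qlb ℓ) × Fin 1) fun τ' => ?_
    · ext x
      simp
    · refine Prod.ext ?_ (Subsingleton.elim _ _)
      ext x
      simp
    · obtain ⟨S₂, hS₂⟩ := hf.trace τ'
      obtain ⟨S₃, hS₃⟩ := hT.trace (τ'.comp φ.toRingHom)
      refine hA.chebotarev k _ _ (hT.irr _) (hf.irr τ') (hT.cont _) (hf.cont τ')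
        ⟨(S ∪ S') ∪ (S₂ ∪ S₃), fun v hv g hg => ?_⟩
      rw [Finset.mem_union, not_or, Finset.mem_union (s := S₂), not_or] at hv
      rw [hS₂ v hv.2.1 g hg, ← hval v hv.1]
      exact hS₃ v hv.2.2 g hg
  · rw [hdimA, one_mul]
    exact (φ.toRatAlgEquiv (R := Z) (S := 𝒩.M f)).toLinearEquiv.finrank_eq
  · -- the endomorphism algebra
    obtain ⟨z, -⟩ := hF.endo.centre
    have hfin := hF.endo.finite
    have h3 : Module.finrank ℚ Z = Module.finrank ℚ (𝒜.E A) := by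
      rw [hF.endo.degree, one_pow, one_mul]
    have hnt : Nontrivial (𝒜.E A) := by
      have : 0 < Module.finrank ℚ (𝒜.E A) := h3 ▸ hz
      exact Module.nontrivial_of_finrank_pos this
    have h4 : Function.Injective z.toRatAlgHom.toLinearMap := z.injective
    have h5 : Function.Surjective z.toRatAlgHom.toLinearMap :=
      (LinearMap.injective_iff_surjective_of_finrank_eq_finrank h3).1 h4
    exact ⟨(RingEquiv.ofBijective z ⟨h4, h5⟩).symm.trans φ⟩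

theorem real_of_totReal {k : NField} (hk : k.IsTotReal) :
    ∃ φ : k.F →+* ℂ, ∀ x, (φ x).im = 0 := by
  have := k.fin
  let φ : k.F →ₐ[ℚ] ℂ := IsAlgClosed.lift
  exact ⟨φ.toRingHom, hk φ.toRingHom⟩

theorem exists_emb {k : NField} (f : 𝒩.New k) : Nonempty (𝒩.M f →+* Qlb ℓ) := by
  let φ : 𝒩.M f →ₐ[ℚ] AlgebraicClosure ℚ_[ℓ] := IsAlgClosed.lift
  exact ⟨φ.toRingHom⟩

theorem Attached.occurs {k : NField} {f : 𝒩.New k} (hf : 𝒩.IsKnown 𝒜 f) {A : 𝒜.AV k}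
    (h : Attached 𝒜 𝒩 f A) (τ : 𝒩.M f →+* Qlb ℓ) : Occurs (𝒩.ρ f τ) (𝒜.V A) := by
  classical
  exact h.2.occurs τ (hf.irr τ)

theorem res_self {k : NField} (R : LRep ℓ k) : Isom (res (le_refl k.F) R) R :=
  isom_iff.2 ⟨LinearEquiv.refl _ _, fun _ _ => rfl⟩

theorem Attached.potentially {k : NField} {f : 𝒩.New k} (hf : 𝒩.IsKnown 𝒜 f) {A : 𝒜.AV k}
    (h : Attached 𝒜 𝒩 f A) : OccursPotentially 𝒜 𝒩 f := by
  obtain ⟨τ⟩ := exists_emb f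
  exact ⟨τ, k, le_refl _, A, (h.occurs hf τ).of_isom (res_self _)⟩

theorem pointwise (hA : 𝒜.IsKnown) {k : NField} (hk : k.IsTotReal) {f : 𝒩.New k}
    (hf : 𝒩.IsKnown 𝒜 f) :
    List.TFAE [HasAV 𝒜 𝒩 f, HasAVWithEnd 𝒜 𝒩 f, OccursPotentially 𝒜 𝒩 f] := by
  tfae_have 2 → 1 := fun ⟨A, h, _⟩ => ⟨A, h⟩
  tfae_have 1 → 3 := fun ⟨A, h⟩ => h.potentially hf
  tfae_have 3 → 2 := fun ⟨τ, _, h, B, hB⟩ => descent hA (real_of_totReal hk) h hf τ B hB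
  tfae_finish

theorem attached_iff (hA : 𝒜.IsKnown) {k : NField} (hk : k.IsTotReal) {f : 𝒩.New k}
    (hf : 𝒩.IsKnown 𝒜 f) :
    HasAV 𝒜 𝒩 f ↔ OccursPotentially 𝒜 𝒩 f :=
  (pointwise hA hk hf).out 0 2

theorem occurs_res {k k' : NField} (h : k.F ≤ k'.F) {R V : LRep ℓ k}
    (hR : Occurs R V) : Occurs (res h R) (res h V) := by
  obtain ⟨φ, h0, hφ⟩ := hR
  exact ⟨φ, h0, fun g x => hφ _ x⟩

theorem occurs_right {k : NField} {R V V' : LRep ℓ k} (hR : Occurs R V)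
    (h : Isom V V') : Occurs R V' := by
  obtain ⟨φ, h0, hφ⟩ := hR
  obtain ⟨ψ, hψ⟩ := isom_iff.1 h
  replace hφ : ∀ g x, φ (R.ρ g x) = V.ρ g (φ x) := hφ
  refine ⟨ψ.toLinearMap ∘ₗ φ, fun h => h0 (LinearMap.ext fun x => ?_), fun g x => ?_⟩
  · have h1 := LinearMap.congr_fun h x
    simpa using h1
  · show ψ (φ (R.ρ g x)) = V'.ρ g (ψ (φ x))
    rw [hφ, hψ]

theorem Commensurable.symm {k₁ k₂ : NField} {f₁ : 𝒩.New k₁} {f₂ : 𝒩.New k₂}
    (h : Commensurable 𝒩 f₁ f₂) : Commensurable 𝒩 f₂ f₁ := by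
  obtain ⟨K, h₁, h₂, τ₁, τ₂, e⟩ := h
  exact ⟨K, h₂, h₁, τ₂, τ₁, e.symm⟩

theorem commensurable_mp (hA : 𝒜.IsKnown) {k₁ k₂ : NField} (hk₂ : k₂.IsTotReal)
    {f₁ : 𝒩.New k₁} {f₂ : 𝒩.New k₂} (hf₁ : 𝒩.IsKnown 𝒜 f₁) (hf₂ : 𝒩.IsKnown 𝒜 f₂)
    (h : Commensurable 𝒩 f₁ f₂) (h' : HasAV 𝒜 𝒩 f₁) : HasAV 𝒜 𝒩 f₂ := by
  obtain ⟨K, h₁, h₂, τ₁, τ₂, e⟩ := h
  obtain ⟨A, hA'⟩ := h'
  obtain ⟨B, hB⟩ := hA.ext k₁ K h₁ A
  have h3 : Occurs (res h₁ (𝒩.ρ f₁ τ₁)) (𝒜.V B) :=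
    occurs_right (occurs_res h₁ (hA'.occurs hf₁ τ₁)) hB
  exact (attached_iff hA hk₂ hf₂).2 ⟨τ₂, K, h₂, B, h3.of_isom e.symm⟩

theorem commensurable_iff (hA : 𝒜.IsKnown) {k₁ k₂ : NField} (hk₁ : k₁.IsTotReal)
    (hk₂ : k₂.IsTotReal) {f₁ : 𝒩.New k₁} {f₂ : 𝒩.New k₂} (hf₁ : 𝒩.IsKnown 𝒜 f₁)
    (hf₂ : 𝒩.IsKnown 𝒜 f₂) (h : Commensurable 𝒩 f₁ f₂) : HasAV 𝒜 𝒩 f₁ ↔ HasAV 𝒜 𝒩 f₂ :=
  ⟨commensurable_mp hA hk₂ hf₁ hf₂ h, commensurable_mp hA hk₁ hf₂ hf₁ h.symm⟩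

theorem IsBaseChange.commensurable {k k' : NField} {h : k.F ≤ k'.F} {f : 𝒩.New k}
    {f' : 𝒩.New k'} (hb : IsBaseChange 𝒩 h f f') : Commensurable 𝒩 f f' := by
  obtain ⟨τ⟩ := exists_emb f
  obtain ⟨τ', hτ'⟩ := hb τ
  exact ⟨k', h, le_refl _, τ, τ', hτ'.trans (res_self _).symm⟩

theorem main (hA : 𝒜.IsKnown)
    (hN : ∀ k : NField, k.IsTotReal → ∀ f : 𝒩.New k, 𝒩.IsKnown 𝒜 f)
    (hb : HasBaseChange 𝒩) (hZ : ZhangTheorem 𝒜 𝒩) {L : NField} (hL : L.IsTotReal) :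
    List.TFAE [AllNewforms 𝒜 𝒩, Q1 𝒜 𝒩, Q1LevelOne 𝒜 𝒩, Remaining 𝒜 𝒩 L] := by
  tfae_have 1 → 2 := fun h k hk _ f _ => h k hk f
  tfae_have 2 → 3 := fun h k hk he f hf => h k hk he f fun v => by rw [hf v]; exact Even.zero
  tfae_have 3 → 4 := fun h k hk _ he f hf _ => by
    obtain ⟨A, hA'⟩ := h k hk he f hf
    exact hA'.potentially (hN k hk f)
  tfae_have 4 → 1 := by
    intro h k hk f
    obtain ⟨k', hkk', f', hLk', hk', hff', hl⟩ := hb L k hL hk f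
    rw [commensurable_iff hA hk hk' (hN k hk f) (hN k' hk' f') hff'.commensurable]
    rcases hl with hl | hl
    · rcases Nat.even_or_odd (Module.finrank ℚ k'.F) with he | ho
      · by_cases hz : ∃ k₂ : NField, k₂.IsTotReal ∧ ∃ g : 𝒩.New k₂,
            Commensurable 𝒩 f' g ∧ IsZhang 𝒩 g
        · obtain ⟨k₂, hk₂, g, hg, hg'⟩ := hz
          exact commensurable_mp hA hk' (hN k₂ hk₂ g) (hN k' hk' f') hg.symm (hZ k₂ hk₂ g hg')
        · exact (attached_iff hA hk' (hN k' hk' f')).2 (h k' hk' hLk' he f' hl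
            fun k₂ hk₂ g hg hg' => hz ⟨k₂, hk₂, g, hg, hg'⟩)
      · exact hZ k' hk' f' (Or.inl ho)
    · exact hZ k' hk' f' (Or.inr hl)
  tfae_finish

end Pool.Agent.J4.H9.HM
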