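import Mathlib

/-!
# Abelian varieties and Hilbert modular newforms: definitions

The known facts on abelian varieties over number fields and on Hilbert modular newforms, in terms of
Galois representations.
-/

set_option autoImplicit false

open IsDedekindDomain

namespace Pool.Agent.J4.H9.HM

/-- The algebraic numbers. -/
def Qb : Type := AlgebraicClosure ℚ

noncomputable instance : Field Qb := (inferInstance : Field (AlgebraicClosure ℚ))

noncomputable instance : Algebra ℚ Qb := (inferInstance : Algebra ℚ (AlgebraicClosure ℚ))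

/-- The algebraic closure of the field of `ℓ`-adic numbers. -/
def Qlb (ℓ : ℕ) [Fact ℓ.Prime] : Type := AlgebraicClosure ℚ_[ℓ]

noncomputable instance (ℓ : ℕ) [Fact ℓ.Prime] : Field (Qlb ℓ) :=
  (inferInstance : Field (AlgebraicClosure ℚ_[ℓ]))

/-- The ring of all algebraic integers. -/
def Zb : Type := integralClosure ℤ Qb

noncomputable instance : CommRing Zb := (inferInstance : CommRing (integralClosure ℤ Qb))

/-- the algebraic integer as an algebraic number -/
def Zb.toQb (x : Zb) : Qb := x.1

/-- The number fields, as fields of algebraic numbers. -/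
structure NField where
  F : IntermediateField ℚ Qb
  fin : FiniteDimensional ℚ F

/-- The field is totally real. -/
def NField.IsTotReal (k : NField) : Prop := ∀ (φ : k.F →+* ℂ) (x : k.F), (φ x).im = 0

/-- The absolute Galois group. -/
def NField.Gal (k : NField) : Type := k.F.fixingSubgroup

noncomputable instance (k : NField) : Group k.Gal := (inferInstance : Group k.F.fixingSubgroup)

/-- the action of the Galois group -/
noncomputable def NField.act {k : NField} (g : k.Gal) (x : Qb) : Qb := g.1 x

/-- the Galois group of an extension field as a subgroup -/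
noncomputable def NField.incl {k k' : NField} (h : k.F ≤ k'.F) : k'.Gal →* k.Gal :=
  Subgroup.inclusion (IntermediateField.fixingSubgroup_le h)

/-- The ring of integers. -/
def NField.O (k : NField) : Type := NumberField.RingOfIntegers k.F

noncomputable instance (k : NField) : CommRing k.O :=
  (inferInstance : CommRing (NumberField.RingOfIntegers k.F))

/-- the element of the ring of integers as an algebraic number -/
noncomputable def NField.toQb {k : NField} (x : k.O) : Qb :=
  (algebraMap (NumberField.RingOfIntegers k.F) k.F x).1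

/-- The finite places. -/
abbrev NField.Pl (k : NField) : Type := HeightOneSpectrum k.O

/-- the number of elements of the residue field -/
noncomputable def NField.norm {k : NField} (v : k.Pl) : ℕ := Nat.card (k.O ⧸ v.asIdeal)

/-- `P` is a prime ideal of the ring of all algebraic integers above the place `v`. -/
def IsAbove {k : NField} (v : k.Pl) (P : Ideal Zb) : Prop :=
  P.IsPrime ∧ ∀ (x : k.O) (y : Zb), y.toQb = k.toQb x → (x ∈ v.asIdeal ↔ y ∈ P)

/-- The element `g` of the Galois group is a Frobenius element at `v`: there is a prime ideal `P` of the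
ring of all algebraic integers above `v` with `g x ≡ x ^ q` modulo `P` for all `x`, where `q` is the number
of elements of the residue field of `v`. -/
def IsFrob {k : NField} (v : k.Pl) (g : k.Gal) : Prop :=
  ∃ P : Ideal Zb, IsAbove v P ∧ ∀ x y : Zb, y.toQb = NField.act g x.toQb → y - x ^ NField.norm v ∈ P

/-- The finite-dimensional representations of the group `Γ` over the field `K`. -/
structure GRep (K : Type) [Field K] (Γ : Type) [Group Γ] where
  W : Type
  [acg : AddCommGroup W]
  [mod : Module K W]
  [fin : FiniteDimensional K W]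
  ρ : Γ →* Module.End K W

attribute [instance] GRep.acg GRep.mod GRep.fin

section

variable {K : Type} [Field K] {Γ : Type} [Group Γ]

/-- the action of an element of the group -/
def GRep.act (R : GRep K Γ) (g : Γ) : R.W →ₗ[K] R.W := R.ρ g

/-- The linear map `φ` commutes with the action of the group. -/
def Equivariant {R V : GRep K Γ} (φ : R.W →ₗ[K] V.W) : Prop :=
  ∀ g x, φ (R.act g x) = V.act g (φ x)

/-- `R` is a quotient of a subrepresentation of `V`: for irreducible `R` it is a
subrepresentation. -/
def Occurs (R V : GRep K Γ) : Prop := ∃ φ : R.W →ₗ[K] V.W, φ ≠ 0 ∧ Equivariant φ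

/-- isomorphic representations -/
def Isom (R V : GRep K Γ) : Prop := ∃ φ : R.W →ₗ[K] V.W, Function.Bijective φ ∧ Equivariant φ

/-- irreducible representations -/
def Irr (R : GRep K Γ) : Prop :=
  (∃ x : R.W, x ≠ 0) ∧
    ∀ P : Submodule K R.W, (∀ g, ∀ x ∈ P, R.act g x ∈ P) → P = ⊥ ∨ P = ⊤

/-- `V` is the direct sum of the representations `R i`. -/
def IsSum (V : GRep K Γ) {I : Type} (R : I → GRep K Γ) : Prop :=
  ∃ p : ∀ i, V.W →ₗ[K] (R i).W, (∀ i, Equivariant (p i)) ∧
    Function.Bijective fun (x : V.W) (i : I) => p i x

/-- the trace -/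
noncomputable def tr (R : GRep K Γ) (g : Γ) : K := LinearMap.trace K R.W (R.act g)

/-- the dimension -/
noncomputable def GRep.dim (R : GRep K Γ) : ℕ := Module.finrank K R.W

end

/-- the restriction of a representation to an extension field -/
noncomputable def res {K : Type} [Field K] {k k' : NField} (h : k.F ≤ k'.F) (R : GRep K k.Gal) :
    GRep K k'.Gal where
  W := R.W
  ρ := R.ρ.comp (NField.incl h)

/-- The representations of the Galois group of `k` over the algebraic closure of `ℚ_ℓ`. -/
abbrev LRep (ℓ : ℕ) [Fact ℓ.Prime] (k : NField) : Type 1 := GRep (Qlb ℓ) k.Gal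

variable (ℓ : ℕ) [Fact ℓ.Prime]

/-- The abelian varieties over number fields up to isogeny, with their dimensions, their Tate modules
`V` (with coefficients in the algebraic closure of `ℚ_ℓ`) and their endomorphism algebras `E`; the class
`Cont` of the representations which are continuous and unramified at almost all places. -/
structure AbVars where
  AV : NField → Type
  dim : ∀ {k : NField}, AV k → ℕ
  V : ∀ {k : NField}, AV k → LRep ℓ k
  Simple : ∀ {k : NField}, AV k → Prop
  E : ∀ {k : NField}, AV k → Type
  [ringE : ∀ {k : NField} (A : AV k), Ring (E A)]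
  [algE : ∀ {k : NField} (A : AV k), Algebra ℚ (E A)]
  Cont : ∀ {k : NField}, LRep ℓ k → Prop

attribute [instance] AbVars.ringE AbVars.algE

variable {ℓ}

/-- Two representations have the same traces of the Frobenius elements at almost all places. -/
def SameTraces {k : NField} (R R' : LRep ℓ k) : Prop :=
  ∃ S : Finset k.Pl, ∀ v ∉ S, ∀ g, IsFrob v g → tr R g = tr R' g

/-- The traces of the Frobenius elements on `R` are the images of the numbers `a v` at almost all
places `v`. -/
def TracesAre {k : NField} {M : Type} [Field M] (R : LRep ℓ k) (τ : M →+* Qlb ℓ) (a : k.Pl → M) :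
    Prop :=
  ∃ S : Finset k.Pl, ∀ v ∉ S, ∀ g, IsFrob v g → tr R g = τ (a v)

/-- The numbers `a v` generate the field `M`, also without finitely many of them. -/
def Generate {k : NField} {M : Type} [Field M] (a : k.Pl → M) : Prop :=
  ∀ S : Finset k.Pl, Subfield.closure (a '' {v | v ∉ S}) = ⊤

/-- The representations `W σ`, `σ : Z → ℚ̄_ℓ`, are irreducible of the same dimension, the Tate module of
the abelian variety `A` is the sum of `m` copies of each of them (so `2 dim A = m [Z : ℚ] dim W σ`), and the
traces of the Frobenius elements at `v` on `W σ` are `σ (t v)` at almost all places. -/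
structure TateDecomposition (𝒜 : AbVars ℓ) {k : NField} (A : 𝒜.AV k) {Z : Type} [Field Z]
    [NumberField Z] (m : ℕ) (W : (Z →+* Qlb ℓ) → LRep ℓ k) (t : k.Pl → Z) : Prop where
  irr : ∀ σ, Irr (W σ)
  cont : ∀ σ, 𝒜.Cont (W σ)
  dim : ∀ σ, m * (W σ).dim * Module.finrank ℚ Z = 2 * 𝒜.dim A
  sum : IsSum (𝒜.V A) (fun i : (Z →+* Qlb ℓ) × Fin m => W i.1)
  trace : ∀ σ, TracesAre (W σ) σ t

/-- The algebra `E` over `ℚ` is a division algebra, its centre is `Z`, and its dimension over `Z` is
`m ^ 2`. -/
structure IsDivision (E : Type) [Ring E] [Algebra ℚ E] (Z : Type) [Field Z] [NumberField Z]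
    (m : ℕ) : Prop where
  unit : ∀ x : E, x ≠ 0 → IsUnit x
  finite : Module.Finite ℚ E
  centre : ∃ z : Z →+* E, ∀ x : E, x ∈ Set.center E ↔ ∃ y, z y = x
  degree : Module.finrank ℚ E = m ^ 2 * Module.finrank ℚ Z

/-- **The theorems of Faltings and Weil for a simple abelian variety `A`.** The endomorphism algebra is
a division algebra of degree `m` over its centre `Z`, a number field; the Tate module is the sum of `m`
copies of irreducible representations `W σ`, where `σ` are the embeddings of `Z`, of the dimension
`2 dim A / (m [Z : ℚ])`; and the traces of the Frobenius elements at `v` on `W σ` are `σ (t v)`, where the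
elements `t v` of `Z` generate `Z` (also without finitely many `v`). -/
structure Faltings (𝒜 : AbVars ℓ) {k : NField} (A : 𝒜.AV k) (Z : Type) [Field Z] [NumberField Z]
    (m : ℕ) : Prop where
  pos : 0 < 𝒜.dim A
  endo : IsDivision (𝒜.E A) Z m
  tate : ∃ (W : (Z →+* Qlb ℓ) → LRep ℓ k) (t : k.Pl → Z),
    TateDecomposition 𝒜 A m W t ∧ Generate t

/-- **The action of the complex conjugation** on the homology of the complex points of a simple abelian
variety of dimension `d` with endomorphism algebra `E`, over a field with a real embedding: the homology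
`H` is a vector space over `ℚ` with an action of `E`, the conjugation `c` commutes with the endomorphisms,
and its fixed vectors are half of `H`, a space of dimension `d`. -/
def RealStructure (E : Type) [Ring E] [Algebra ℚ E] (d : ℕ) : Prop :=
  ∃ (H : Type) (_ : AddCommGroup H) (_ : Module ℚ H) (_ : Module E H) (_ : IsScalarTower ℚ E H)
    (c : H →ₗ[E] H), FiniteDimensional ℚ H ∧ (∀ x, c (c x) = x) ∧
      Module.finrank ℚ (LinearMap.eqLocus c LinearMap.id) = d

/-- There are Frobenius elements at all places. -/
def FrobExists : Prop := ∀ (k : NField) (v : k.Pl), ∃ g : k.Gal, IsFrob v g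

/-- extension of scalars to an extension field -/
def AbVars.Extension (𝒜 : AbVars ℓ) : Prop :=
  ∀ (k k' : NField) (h : k.F ≤ k'.F) (A : 𝒜.AV k), ∃ A' : 𝒜.AV k',
    Isom (res h (𝒜.V A)) (𝒜.V A')

/-- **Poincaré**: an irreducible representation which occurs in an abelian variety occurs in a simple
one. -/
def AbVars.Poincare (𝒜 : AbVars ℓ) : Prop :=
  ∀ (k : NField) (B : 𝒜.AV k) (R : LRep ℓ k), Irr R → Occurs R (𝒜.V B) →
    ∃ A : 𝒜.AV k, 𝒜.Simple A ∧ Occurs R (𝒜.V A)

/-- **Restriction of scalars** (Weil): there is an abelian variety `B₀` over `k` whose Tate module is the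
induced representation of the Tate module of `B`. -/
def AbVars.WeilRestriction (𝒜 : AbVars ℓ) : Prop :=
  ∀ (k k' : NField) (h : k.F ≤ k'.F) (B : 𝒜.AV k'), ∃ B₀ : 𝒜.AV k,
    ∀ R : LRep ℓ k, Occurs (res h R) (𝒜.V B) → Occurs R (𝒜.V B₀)

/-- the theorems of Faltings and Weil for all simple abelian varieties -/
def AbVars.FaltingsTheorem (𝒜 : AbVars ℓ) : Prop :=
  ∀ (k : NField) (A : 𝒜.AV k), 𝒜.Simple A →
    ∃ (Z : Type) (_ : Field Z) (_ : NumberField Z) (m : ℕ), Faltings 𝒜 A Z m

/-- the complex conjugation for all simple abelian varieties over fields with a real embedding -/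
def AbVars.Conjugation (𝒜 : AbVars ℓ) : Prop :=
  ∀ (k : NField) (A : 𝒜.AV k), (∃ φ : k.F →+* ℂ, ∀ x, (φ x).im = 0) → 𝒜.Simple A →
    RealStructure (𝒜.E A) (𝒜.dim A)

/-- **Chebotarev**: two irreducible representations with the same traces of the Frobenius elements at
almost all places are isomorphic. -/
def AbVars.Chebotarev (𝒜 : AbVars ℓ) : Prop :=
  ∀ (k : NField) (R R' : LRep ℓ k), Irr R → Irr R' → 𝒜.Cont R → 𝒜.Cont R' →
    SameTraces R R' → Isom R R'

/-- The known facts on abelian varieties: extension of scalars, reducibility (Poincaré), restriction of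
scalars (Weil), the Tate modules of simple abelian varieties (Faltings, Weil), the complex conjugation,
the existence of Frobenius elements, and the theorem of Chebotarev. -/
structure AbVars.IsKnown (𝒜 : AbVars ℓ) : Prop where
  frob : FrobExists
  ext : 𝒜.Extension
  poincare : 𝒜.Poincare
  weil : 𝒜.WeilRestriction
  faltings : 𝒜.FaltingsTheorem
  real : 𝒜.Conjugation
  chebotarev : 𝒜.Chebotarev

variable (ℓ) in
/-- The Hilbert modular newforms of parallel weight two with trivial central character over the
(totally real) fields `k`: the field `M` generated by the eigenvalues `a`, the exponents `level` of the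
level, and the `ℓ`-adic representations `ρ f τ`, `τ : M → ℚ̄_ℓ`. -/
structure Newforms where
  New : NField → Type
  M : ∀ {k : NField}, New k → Type
  [field : ∀ {k : NField} (f : New k), Field (M f)]
  [numberField : ∀ {k : NField} (f : New k), NumberField (M f)]
  a : ∀ {k : NField} (f : New k), k.Pl → M f
  level : ∀ {k : NField}, New k → k.Pl → ℕ
  ρ : ∀ {k : NField} (f : New k), (M f →+* Qlb ℓ) → LRep ℓ k

attribute [instance] Newforms.field Newforms.numberField

/-- The known facts on the `ℓ`-adic representation of a newform (Carayol, Taylor, Ribet, strong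
multiplicity one): it is irreducible, of dimension two, the traces of the Frobenius elements are the
eigenvalues, and these generate the field `M` (also without finitely many of them). -/
structure Newforms.IsKnown (𝒜 : AbVars ℓ) (𝒩 : Newforms ℓ) {k : NField} (f : 𝒩.New k) : Prop where
  irr : ∀ τ, Irr (𝒩.ρ f τ)
  cont : ∀ τ, 𝒜.Cont (𝒩.ρ f τ)
  two : ∀ τ, (𝒩.ρ f τ).dim = 2
  trace : ∀ τ, TracesAre (𝒩.ρ f τ) τ (𝒩.a f)
  gen : Generate (𝒩.a f)

/-- The abelian variety `A` is attached to the newform `f`: it is simple, and its Tate module is the sum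
of the representations of the conjugates of `f` (so `L(A, s)` is the product of their
`L`-functions). -/
def Attached (𝒜 : AbVars ℓ) (𝒩 : Newforms ℓ) {k : NField} (f : 𝒩.New k) (A : 𝒜.AV k) : Prop :=
  𝒜.Simple A ∧ IsSum (𝒜.V A) (𝒩.ρ f)

/-- The newform `f'` over the extension `k'` is the base change of `f`. -/
def IsBaseChange (𝒩 : Newforms ℓ) {k k' : NField} (h : k.F ≤ k'.F) (f : 𝒩.New k)
    (f' : 𝒩.New k') : Prop := ∀ τ, ∃ τ', Isom (res h (𝒩.ρ f τ)) (𝒩.ρ f' τ')

/-- There is an abelian variety attached to the newform `f`. -/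
def HasAV (𝒜 : AbVars ℓ) (𝒩 : Newforms ℓ) {k : NField} (f : 𝒩.New k) : Prop :=
  ∃ A : 𝒜.AV k, Attached 𝒜 𝒩 f A

/-- There is an abelian variety `A` attached to the newform `f`, its dimension is the degree of the field
`M` of `f`, and its endomorphism algebra is `M`. -/
def HasAVWithEnd (𝒜 : AbVars ℓ) (𝒩 : Newforms ℓ) {k : NField} (f : 𝒩.New k) : Prop :=
  ∃ A : 𝒜.AV k, Attached 𝒜 𝒩 f A ∧ 𝒜.dim A = Module.finrank ℚ (𝒩.M f) ∧
    Nonempty (𝒜.E A ≃+* 𝒩.M f)

/-- The representation of `f` occurs potentially in abelian varieties: over some finite extension one of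
the representations `ρ f τ` occurs in the Tate module of some abelian variety. -/
def OccursPotentially (𝒜 : AbVars ℓ) (𝒩 : Newforms ℓ) {k : NField} (f : 𝒩.New k) : Prop :=
  ∃ (τ : 𝒩.M f →+* Qlb ℓ) (k' : NField) (h : k.F ≤ k'.F) (B : 𝒜.AV k'),
    Occurs (res h (𝒩.ρ f τ)) (𝒜.V B)

/-- The newforms `f₁` and `f₂`, over arbitrary fields `k₁` and `k₂`, are commensurable: over some finite
extension `K` of `k₁` and `k₂` one of the representations of `f₁` is isomorphic to one of the
representations of `f₂`. For instance this holds if `f₂` is a base change of `f₁`, if `f₁` and `f₂` have a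
common base change, or if they differ by a twist with a character of finite order. -/
def Commensurable (𝒩 : Newforms ℓ) {k₁ k₂ : NField} (f₁ : 𝒩.New k₁) (f₂ : 𝒩.New k₂) : Prop :=
  ∃ (K : NField) (h₁ : k₁.F ≤ K.F) (h₂ : k₂.F ≤ K.F) (τ₁ : 𝒩.M f₁ →+* Qlb ℓ)
    (τ₂ : 𝒩.M f₂ →+* Qlb ℓ), Isom (res h₁ (𝒩.ρ f₁ τ₁)) (res h₂ (𝒩.ρ f₂ τ₂))

/-- The hypothesis of the theorem of Zhang: the degree of the field is odd or the exponent of the level is
odd at some place. -/
def IsZhang (𝒩 : Newforms ℓ) {k : NField} (f : 𝒩.New k) : Prop :=
  Odd (Module.finrank ℚ k.F) ∨ ∃ v, Odd (𝒩.level f v)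

/-- **Base change**: let `L` and `k` be totally real fields; every newform over `k` has a base change to
some totally real field containing `k` and `L` such that it is everywhere unramified there or the exponent
of its level is odd (equal to one) at some place. (Langlands for solvable extensions; Taylor and
Barnet-Lamb, Gee, Geraghty, Taylor for extensions containing a given field `L`.) -/
def HasBaseChange (𝒩 : Newforms ℓ) : Prop :=
  ∀ (L k : NField), L.IsTotReal → k.IsTotReal → ∀ f : 𝒩.New k,
    ∃ (k' : NField) (h : k.F ≤ k'.F) (f' : 𝒩.New k'), L.F ≤ k'.F ∧ k'.IsTotReal ∧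
      IsBaseChange 𝒩 h f f' ∧ ((∀ v, 𝒩.level f' v = 0) ∨ ∃ v, Odd (𝒩.level f' v))

/-- **The theorem of Zhang**: the abelian variety exists if the degree of the field is odd or the
exponent of the level is odd at some place. -/
def ZhangTheorem (𝒜 : AbVars ℓ) (𝒩 : Newforms ℓ) : Prop :=
  ∀ (k : NField), k.IsTotReal → ∀ f : 𝒩.New k, IsZhang 𝒩 f → HasAV 𝒜 𝒩 f

/-- There are abelian varieties attached to all newforms over totally real fields. -/
def AllNewforms (𝒜 : AbVars ℓ) (𝒩 : Newforms ℓ) : Prop :=
  ∀ k : NField, k.IsTotReal → ∀ f : 𝒩.New k, HasAV 𝒜 𝒩 f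

/-- **Q1**: there are abelian varieties attached to all newforms over totally real fields of even degree,
if the exponents of the level are even at all places. -/
def Q1 (𝒜 : AbVars ℓ) (𝒩 : Newforms ℓ) : Prop :=
  ∀ k : NField, k.IsTotReal → Even (Module.finrank ℚ k.F) → ∀ f : 𝒩.New k,
    (∀ v, Even (𝒩.level f v)) → HasAV 𝒜 𝒩 f

/-- Q1 for the newforms of level one. -/
def Q1LevelOne (𝒜 : AbVars ℓ) (𝒩 : Newforms ℓ) : Prop :=
  ∀ k : NField, k.IsTotReal → Even (Module.finrank ℚ k.F) → ∀ f : 𝒩.New k,
    (∀ v, 𝒩.level f v = 0) → HasAV 𝒜 𝒩 f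

/-- The smallest case: let `k` be a totally real field of even degree which contains `L` and `f` a newform
of level one over `k` which is not commensurable with any newform covered by the theorem of Zhang; then
the representation of `f` occurs potentially in abelian varieties. -/
def Remaining (𝒜 : AbVars ℓ) (𝒩 : Newforms ℓ) (L : NField) : Prop :=
  ∀ k : NField, k.IsTotReal → L.F ≤ k.F → Even (Module.finrank ℚ k.F) → ∀ f : 𝒩.New k,
    (∀ v, 𝒩.level f v = 0) →
    (∀ k₂ : NField, k₂.IsTotReal → ∀ g : 𝒩.New k₂, Commensurable 𝒩 f g → ¬ IsZhang 𝒩 g) →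
    OccursPotentially 𝒜 𝒩 f

end Pool.Agent.J4.H9.HM
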