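import Pool.Agent.J4.H9.HM.Defs

/-!
# Representations: lemmas
-/

set_option autoImplicit false

namespace Pool.Agent.J4.H9.HM

variable {K : Type} [Field K] {Γ : Type} [Group Γ]

theorem isom_iff {R V : GRep K Γ} :
    Isom R V ↔ ∃ φ : R.W ≃ₗ[K] V.W, ∀ g x, φ (R.ρ g x) = V.ρ g (φ x) :=
  ⟨fun ⟨φ, hb, hφ⟩ => ⟨LinearEquiv.ofBijective φ hb, hφ⟩,
    fun ⟨φ, hφ⟩ => ⟨φ.toLinearMap, φ.bijective, hφ⟩⟩

theorem isSum_iff {V : GRep K Γ} {I : Type} {R : I → GRep K Γ} :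
    IsSum V R ↔ ∃ e : V.W ≃ₗ[K] (∀ i, (R i).W), ∀ g x i, e (V.ρ g x) i = (R i).ρ g (e x i) :=
  ⟨fun ⟨p, hp, hb⟩ => ⟨LinearEquiv.ofBijective (LinearMap.pi p) hb, fun g x i => hp i g x⟩,
    fun ⟨e, he⟩ => ⟨fun i => LinearMap.proj i ∘ₗ e.toLinearMap, fun i g x => he g x i,
      e.bijective⟩⟩

theorem Isom.symm {R V : GRep K Γ} (h : Isom R V) : Isom V R := by
  obtain ⟨φ, hφ⟩ := isom_iff.1 h
  refine isom_iff.2 ⟨φ.symm, fun g x => ?_⟩
  rw [LinearEquiv.symm_apply_eq, hφ, LinearEquiv.apply_symm_apply]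

theorem Isom.trans {R V U : GRep K Γ} (h : Isom R V) (h' : Isom V U) : Isom R U := by
  obtain ⟨φ, hφ⟩ := isom_iff.1 h
  obtain ⟨ψ, hψ⟩ := isom_iff.1 h'
  exact isom_iff.2 ⟨φ.trans ψ, fun g x => by simp [hφ, hψ]⟩

theorem tr_def (R : GRep K Γ) (g : Γ) : tr R g = LinearMap.trace K R.W (R.ρ g) := rfl

theorem Isom.tr_eq {R V : GRep K Γ} (h : Isom R V) (g : Γ) : tr R g = tr V g := by
  obtain ⟨φ, hφ⟩ := isom_iff.1 h
  have h1 : V.ρ g = φ.toLinearMap ∘ₗ R.ρ g ∘ₗ φ.symm.toLinearMap := by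
    ext x
    simp [hφ]
  rw [tr_def, tr_def, h1, ← LinearMap.comp_assoc, LinearMap.trace_comp_comm', ← LinearMap.comp_assoc]
  simp

theorem Isom.dim_eq {R V : GRep K Γ} (h : Isom R V) : R.dim = V.dim := by
  obtain ⟨φ, _⟩ := isom_iff.1 h
  exact φ.finrank_eq

theorem tr_sum {V : GRep K Γ} {I : Type} [Fintype I] [DecidableEq I] {R : I → GRep K Γ}
    (h : IsSum V R) (g : Γ) : tr V g = ∑ i, tr (R i) g := by
  obtain ⟨e, he⟩ := isSum_iff.1 h
  have h1 : V.ρ g = ∑ i, (e.symm.toLinearMap ∘ₗ LinearMap.single K (fun i => (R i).W) i) ∘ₗ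
      ((R i).ρ g ∘ₗ LinearMap.proj i ∘ₗ e.toLinearMap) := by
    ext x
    apply e.injective
    rw [LinearMap.sum_apply, map_sum]
    funext j
    rw [he, Finset.sum_apply, Finset.sum_eq_single j]
    · simp
    · intro i _ hij
      simp [Pi.single_eq_of_ne (Ne.symm hij)]
    · simp
  rw [tr_def, h1, map_sum]
  refine Finset.sum_congr rfl fun i _ => ?_
  rw [LinearMap.trace_comp_comm', tr_def]
  congr 1
  ext x
  simp

/-- an intertwining map between irreducible representations -/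
theorem isom_of_ne {R V : GRep K Γ} (hR : Irr R) (hV : Irr V) (φ : R.W →ₗ[K] V.W) (h0 : φ ≠ 0)
    (hφ : ∀ g x, φ (R.ρ g x) = V.ρ g (φ x)) : Isom R V := by
  have h1 : LinearMap.ker φ = ⊥ := by
    refine (hR.2 (LinearMap.ker φ) fun g x hx => ?_).resolve_right fun h => ?_
    · rw [LinearMap.mem_ker] at hx ⊢
      show φ (R.ρ g x) = 0
      rw [hφ, hx, map_zero]
    · exact h0 (LinearMap.ker_eq_top.1 h)
  have h2 : LinearMap.range φ = ⊤ := by
    refine (hV.2 (LinearMap.range φ) fun g x hx => ?_).resolve_left fun h => ?_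
    · obtain ⟨y, rfl⟩ := hx
      exact ⟨R.ρ g y, hφ g y⟩
    · exact h0 (LinearMap.range_eq_bot.1 h)
  exact ⟨φ, ⟨LinearMap.ker_eq_bot.1 h1, LinearMap.range_eq_top.1 h2⟩, hφ⟩

theorem exists_isom {R V : GRep K Γ} (hR : Irr R) (h : Occurs R V) {I : Type} {W : I → GRep K Γ}
    (hs : IsSum V W) (hW : ∀ i, Irr (W i)) : ∃ i, Isom R (W i) := by
  obtain ⟨φ, h0, hφ⟩ := h
  replace hφ : ∀ g x, φ (R.ρ g x) = V.ρ g (φ x) := hφ
  obtain ⟨e, he⟩ := isSum_iff.1 hs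
  by_contra hcon
  push Not at hcon
  refine h0 (LinearMap.ext fun x => e.injective (funext fun i => ?_))
  by_contra hx
  refine hcon i (isom_of_ne hR (hW i) (LinearMap.proj i ∘ₗ e.toLinearMap ∘ₗ φ) (fun h => hx ?_)
    fun g y => ?_)
  · have h1 := LinearMap.congr_fun h x
    simpa using h1
  · show e (φ (R.ρ g y)) i = _
    rw [hφ, he]
    rfl

theorem IsSum.occurs {V : GRep K Γ} {I : Type} [DecidableEq I] {W : I → GRep K Γ}
    (hs : IsSum V W) (i : I) (hW : Irr (W i)) : Occurs (W i) V := by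
  obtain ⟨e, he⟩ := isSum_iff.1 hs
  refine ⟨e.symm.toLinearMap ∘ₗ LinearMap.single K (fun i => (W i).W) i, fun h => ?_,
    fun g x => ?_⟩
  · obtain ⟨x, hx⟩ := hW.1
    have h1 := LinearMap.congr_fun h x
    have h2 : e.symm (Pi.single i x) = 0 := h1
    rw [LinearEquiv.symm_apply_eq, map_zero] at h2
    apply hx
    have h3 := congrFun h2 i
    simpa using h3
  · apply e.injective
    funext j
    show e (e.symm (Pi.single i ((W i).ρ g x))) j =
      e (V.ρ g (e.symm (Pi.single i x))) j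
    rw [he]
    show e (e.symm (Pi.single i ((W i).ρ g x))) j = (W j).ρ g (e (e.symm (Pi.single i x)) j)
    rw [LinearEquiv.apply_symm_apply, LinearEquiv.apply_symm_apply]
    by_cases hij : j = i
    · subst hij
      rw [Pi.single_eq_same, Pi.single_eq_same]
    · rw [Pi.single_eq_of_ne hij, Pi.single_eq_of_ne hij, map_zero]

theorem IsSum.congr {V : GRep K Γ} {I J : Type} {W : I → GRep K Γ} {U : J → GRep K Γ}
    (hs : IsSum V W) (f : J ≃ I) (h : ∀ j, Isom (W (f j)) (U j)) : IsSum V U := by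
  obtain ⟨e, he⟩ := isSum_iff.1 hs
  choose φ hφ using fun j => isom_iff.1 (h j)
  refine isSum_iff.2 ⟨e.trans ((LinearEquiv.piCongrLeft K (fun i => (W i).W) f).symm.trans
    (LinearEquiv.piCongrRight φ)), fun g x j => ?_⟩
  show φ j (e (V.ρ g x) (f j)) = (U j).ρ g (φ j (e x (f j)))
  rw [he, hφ]

theorem Occurs.of_isom {R R' V : GRep K Γ} (h : Isom R R') (h' : Occurs R' V) : Occurs R V := by
  obtain ⟨φ, hφ⟩ := isom_iff.1 h
  obtain ⟨ψ, h0, hψ⟩ := h'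
  refine ⟨ψ ∘ₗ φ.toLinearMap, fun h => h0 (LinearMap.ext fun x => ?_), fun g x => ?_⟩
  · have h1 := LinearMap.congr_fun h (φ.symm x)
    simpa using h1
  · show ψ (φ (R.ρ g x)) = V.ρ g (ψ (φ x))
    rw [hφ]
    exact hψ g (φ x)

end Pool.Agent.J4.H9.HM
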